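import Mathlib

set_option autoImplicit false

namespace Pool.Agent.Results.MP_fc8d4d_co.UnboundedGap

open SimpleGraph

/-- colour code of a vertex: the vector of distances to the colour classes -/
noncomputable def code {V : Type} (G : SimpleGraph V) {k : ℕ} (c : V → Fin k) (v : V) : Fin k → ℕ :=
  fun i => sInf {d : ℕ | ∃ u, c u = i ∧ d = G.dist v u}

/-- `c` is a locating colouring with `k` (nonempty) colour classes -/
def IsLocating {V : Type} (G : SimpleGraph V) {k : ℕ} (c : V → Fin k) : Prop :=
  Function.Surjective c ∧ (∀ u v, G.Adj u v → c u ≠ c v) ∧ Function.Injective (code G c)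

/-- the locating chromatic number -/
noncomputable def chiL {V : Type} (G : SimpleGraph V) : ℕ :=
  sInf {k : ℕ | ∃ c : V → Fin k, IsLocating G c}

theorem code_self {V : Type} (G : SimpleGraph V) {k : ℕ} (c : V → Fin k) (v : V) : code G c v (c v) = 0 := by
  have : (0 : ℕ) ∈ {d : ℕ | ∃ u, c u = c v ∧ d = G.dist v u} := ⟨v, rfl, by simp⟩
  exact Nat.le_zero.1 (Nat.sInf_le this)

theorem code_spec {V : Type} (G : SimpleGraph V) {k : ℕ} (c : V → Fin k) (hc : Function.Surjective c) (v : V)
    (i : Fin k) : ∃ u, c u = i ∧ code G c v i = G.dist v u := by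
  obtain ⟨u, hu⟩ := hc i
  have hne : {d : ℕ | ∃ u, c u = i ∧ d = G.dist v u}.Nonempty := ⟨_, u, hu, rfl⟩
  exact Nat.sInf_mem hne

theorem code_le {V : Type} (G : SimpleGraph V) {k : ℕ} (c : V → Fin k) (v u : V) :
    code G c v (c u) ≤ G.dist v u := Nat.sInf_le ⟨u, rfl, rfl⟩

theorem code_eq_zero {V : Type} {G : SimpleGraph V} (hG : G.Connected) {k : ℕ} {c : V → Fin k}
    (hc : Function.Surjective c) {v : V} {i : Fin k} (h : code G c v i = 0) : c v = i := by
  obtain ⟨u, hu, he⟩ := code_spec G c hc v i
  rw [h] at he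
  have := (hG.dist_eq_zero_iff).1 he.symm
  rw [this]; exact hu

/-- a locating colouring always exists for a finite connected graph -/
theorem exists_locating {V : Type} [Fintype V] (G : SimpleGraph V) (hG : G.Connected) :
    ∃ c : V → Fin (Fintype.card V), IsLocating G c := by
  refine ⟨Fintype.equivFin V, (Fintype.equivFin V).surjective, ?_, ?_⟩
  · intro u v h he
    exact G.ne_of_adj h ((Fintype.equivFin V).injective he)
  · intro u v h
    have h1 := congrFun h (Fintype.equivFin V u)
    rw [code_self] at h1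
    have h2 := code_eq_zero hG (Fintype.equivFin V).surjective h1.symm
    exact ((Fintype.equivFin V).injective h2).symm

/-- the counting bound for graphs with all distances at most four -/
theorem card_le {V : Type} [Fintype V] (G : SimpleGraph V) (hG : G.Connected) (h4 : ∀ u v, G.dist u v ≤ 4)
    {t : ℕ} (c : V → Fin t) (hc : IsLocating G c) : Fintype.card V ≤ t * 4 ^ t := by
  obtain ⟨hs, -, hinj⟩ := hc
  have hle : ∀ v i, code G c v i ≤ 4 := by
    intro v i
    obtain ⟨u, -, he⟩ := code_spec G c hs v i
    rw [he]; exact h4 v u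
  let F : V → Fin t × (Fin t → Fin 4) := fun v => (c v, fun i => ⟨code G c v i - 1, by have := hle v i; omega⟩)
  have hF : Function.Injective F := by
    intro u v h
    simp only [F, Prod.mk.injEq] at h
    apply hinj
    funext i
    by_cases hi : c u = i
    · have hv : c v = i := by rw [← h.1]; exact hi
      have h1 := code_self G c u
      have h2 := code_self G c v
      rw [hi] at h1
      rw [hv] at h2
      rw [h1, h2]
    · have hv : c v ≠ i := by rw [← h.1]; exact hi
      have h1 : code G c u i ≠ 0 := fun h0 => hi (code_eq_zero hG hs h0)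
      have h2 : code G c v i ≠ 0 := fun h0 => hv (code_eq_zero hG hs h0)
      have h3 := congrFun h.2 i
      simp only [Fin.mk.injEq] at h3
      omega
  have := Fintype.card_le_of_injective F hF
  simpa using this

/-- the vertex set: one dominating vertex, and pairs `(i, S)` with `i ∉ S` -/
abbrev VV (m : ℕ) : Type := Option {p : Fin m × Finset (Fin m) // p.1 ∉ p.2}

/-- adjacency -/
def adj {m : ℕ} : VV m → VV m → Prop
  | none, none => False
  | none, some _ => True
  | some _, none => True
  | some p, some q => p.1.1 ≠ q.1.1 ∧ q.1.1 ∈ p.1.2 ∧ p.1.1 ∈ q.1.2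

/-- the graph -/
def GG (m : ℕ) : SimpleGraph (VV m) where
  Adj := adj
  symm := ⟨by
    intro a b h
    cases a <;> cases b <;> simp_all [adj]
    exact fun h' => h.1 h'.symm⟩
  loopless := ⟨by
    intro a h
    cases a <;> simp_all [adj]⟩

theorem GG_none {m : ℕ} (a : VV m) (h : a ≠ none) : (GG m).Adj none a := by
  cases a with
  | none => exact absurd rfl h
  | some p => trivial

theorem dist_none {m : ℕ} (a : VV m) : (GG m).Reachable none a ∧ (GG m).dist none a ≤ 1 := by
  by_cases h : a = none
  · subst h; simp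
  · have := GG_none a h
    exact ⟨this.reachable, by rw [SimpleGraph.dist_eq_one_iff_adj.2 this]⟩

theorem GG_connected (m : ℕ) : (GG m).Connected := by
  rw [SimpleGraph.connected_iff]
  refine ⟨fun a b => (dist_none a).1.symm.trans (dist_none b).1, ⟨none⟩⟩

theorem GG_dist (m : ℕ) (a b : VV m) : (GG m).dist a b ≤ 2 := by
  have h := (GG_connected m).dist_triangle (u := a) (v := none) (w := b)
  have h1 := (dist_none a).2
  have h2 := (dist_none b).2
  rw [SimpleGraph.dist_comm] at h1
  omega

/-- the locating colouring with `m + 1` colours -/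
def col (m : ℕ) : VV m → Fin (m + 1)
  | none => Fin.last m
  | some p => Fin.castSucc p.1.1

theorem col_locating (m : ℕ) : IsLocating (GG m) (col m) := by
  have hs : Function.Surjective (col m) := by
    intro i
    induction i using Fin.lastCases with
    | last => exact ⟨none, rfl⟩
    | cast i => exact ⟨some ⟨(i, ∅), by simp⟩, rfl⟩
  refine ⟨hs, ?_, ?_⟩
  · intro a b h
    cases a with
    | none =>
      cases b with
      | none => exact absurd h (by simp [GG])
      | some q => exact (Fin.castSucc_ne_last _).symm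
    | some p =>
      cases b with
      | none => exact Fin.castSucc_ne_last _
      | some q =>
        intro he
        exact h.1 (Fin.castSucc_injective _ he)
  · -- the code determines the vertex
    have hmem : ∀ (p : {p : Fin m × Finset (Fin m) // p.1 ∉ p.2}) (j : Fin m), j ≠ p.1.1 →
        (j ∈ p.1.2 ↔ code (GG m) (col m) (some p) (Fin.castSucc j) = 1) := by
      intro p j hj
      constructor
      · intro hjp
        have hadj : (GG m).Adj (some p) (some ⟨(j, {p.1.1}), by simpa using hj⟩) :=
          ⟨fun h => hj h.symm, hjp, by simp⟩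
        have h1 := code_le (GG m) (col m) (some p) (some ⟨(j, {p.1.1}), by simpa using hj⟩)
        rw [SimpleGraph.dist_eq_one_iff_adj.2 hadj] at h1
        have h2 : code (GG m) (col m) (some p) (Fin.castSucc j) ≠ 0 := by
          intro h0
          have := code_eq_zero (GG_connected m) hs h0
          exact hj (Fin.castSucc_injective _ this).symm
        have h3 : col m (some ⟨(j, {p.1.1}), by simpa using hj⟩) = Fin.castSucc j := rfl
        rw [h3] at h1
        omega
      · intro h1
        obtain ⟨u, hu, he⟩ := code_spec (GG m) (col m) hs (some p) (Fin.castSucc j)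
        rw [h1] at he
        have hadj := SimpleGraph.dist_eq_one_iff_adj.1 he.symm
        cases u with
        | none => exact absurd hu.symm (Fin.castSucc_ne_last _)
        | some q =>
          have : q.1.1 = j := Fin.castSucc_injective _ hu
          rw [← this]
          exact hadj.2.1
    intro a b h
    have hc : col m b = col m a := by
      have h1 := congrFun h (col m a)
      rw [code_self] at h1
      exact code_eq_zero (GG_connected m) hs h1.symm
    cases a with
    | none =>
      cases b with
      | none => rfl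
      | some q => exact absurd hc (Fin.castSucc_ne_last _)
    | some p =>
      cases b with
      | none => exact absurd hc.symm (Fin.castSucc_ne_last _)
      | some q =>
        have hpq : q.1.1 = p.1.1 := Fin.castSucc_injective _ hc
        congr 1
        apply Subtype.ext
        apply Prod.ext hpq.symm
        ext j
        by_cases hj : j = p.1.1
        · have h1 := p.2
          have h2 := q.2
          rw [hpq] at h2
          rw [hj]
          exact iff_of_false h1 h2
        · rw [hmem p j hj, hmem q j (by rw [hpq]; exact hj), h]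

theorem card_VV (m : ℕ) : (m + 1) * 2 ^ m ≤ Fintype.card (VV (m + 1)) := by
  have hinj : Function.Injective (fun p : Fin (m + 1) × Finset (Fin m) =>
      (some ⟨(p.1, p.2.map p.1.succAboveEmb), by simp [Fin.succAbove_ne]⟩ : VV (m + 1))) := by
    rintro ⟨i, S⟩ ⟨j, T⟩ h
    simp only [Option.some.injEq, Subtype.mk.injEq, Prod.mk.injEq] at h
    obtain ⟨rfl, h2⟩ := h
    simpa using h2
  have := Fintype.card_le_of_injective _ hinj
  simpa using this

theorem box_dist {m : ℕ} (x y : VV m × VV m) : ((GG m) □ (GG m)).dist x y ≤ 4 := by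
  have h := SimpleGraph.edist_boxProd (G := GG m) (H := GG m) x y
  have hc := GG_connected m
  rw [← (hc x.1 y.1).coe_dist_eq_edist, ← (hc x.2 y.2).coe_dist_eq_edist,
    ← ((hc.boxProd hc) x y).coe_dist_eq_edist] at h
  have h1 := GG_dist m x.1 y.1
  have h2 := GG_dist m x.2 y.2
  have h3 : ((GG m) □ (GG m)).dist x y = (GG m).dist x.1 y.1 + (GG m).dist x.2 y.2 := by exact_mod_cast h
  omega

/-- For every `C` there is a finite connected graph `G` with
`χ_L(G □ G) ≥ max(χ_L(G), χ_L(G)) + C`. With `C = 4` this refutes the conjectured bound. -/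
theorem result (C : ℕ) : ∃ (V : Type) (_ : Fintype V) (G : SimpleGraph V), G.Connected ∧
    max (chiL G) (chiL G) + C ≤ chiL (G □ G) := by
  classical
  obtain ⟨M, hM⟩ : ∃ M, M + 1 = 4 ^ (C + 2) := ⟨4 ^ (C + 2) - 1, by
    have : 0 < 4 ^ (C + 2) := by positivity
    omega⟩
  refine ⟨VV (M + 1), inferInstance, GG (M + 1), GG_connected _, ?_⟩
  have hconn := (GG_connected (M + 1)).boxProd (GG_connected (M + 1))
  have h1 : chiL (GG (M + 1)) ≤ M + 1 + 1 := Nat.sInf_le ⟨col (M + 1), col_locating (M + 1)⟩
  have hne : {k : ℕ | ∃ c : VV (M + 1) × VV (M + 1) → Fin k, IsLocating (GG (M + 1) □ GG (M + 1)) c}.Nonempty :=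
    ⟨_, exists_locating _ hconn⟩
  obtain ⟨c, hc⟩ := Nat.sInf_mem hne
  have h2 := card_le _ hconn box_dist c hc
  change Fintype.card (VV (M + 1) × VV (M + 1)) ≤
    chiL (GG (M + 1) □ GG (M + 1)) * 4 ^ chiL (GG (M + 1) □ GG (M + 1)) at h2
  rw [max_self]
  by_contra hcon
  push Not at hcon
  have h3 : chiL (GG (M + 1) □ GG (M + 1)) ≤ M + 1 + C := by omega
  have h4 : Fintype.card (VV (M + 1) × VV (M + 1)) ≤ (M + 1 + C) * 4 ^ (M + 1 + C) :=
    h2.trans (Nat.mul_le_mul h3 (Nat.pow_le_pow_right (by norm_num) h3))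
  rw [Fintype.card_prod] at h4
  have h5 := card_VV M
  have h6 : ((M + 1) * 2 ^ M) * ((M + 1) * 2 ^ M) ≤ (M + 1 + C) * 4 ^ (M + 1 + C) :=
    (Nat.mul_le_mul h5 h5).trans h4
  have h7 : (2 : ℕ) ^ M * 2 ^ M = 4 ^ M := by
    rw [← mul_pow]
    norm_num
  have h8 : (4 : ℕ) ^ (M + 1 + C) = 4 ^ M * 4 ^ (C + 1) := by
    rw [← pow_add]; congr 1; omega
  have h9 : C ≤ M + 1 := by
    rw [hM]
    calc C ≤ C + 2 := by omega
      _ ≤ 4 ^ (C + 2) := (Nat.lt_pow_self (by norm_num)).le
  have h10 : (M + 1) * (M + 1) * 4 ^ M ≤ (2 * (M + 1)) * 4 ^ (C + 1) * 4 ^ M := by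
    calc (M + 1) * (M + 1) * 4 ^ M = ((M + 1) * 2 ^ M) * ((M + 1) * 2 ^ M) := by rw [← h7]; ring
      _ ≤ (M + 1 + C) * 4 ^ (M + 1 + C) := h6
      _ = (M + 1 + C) * (4 ^ M * 4 ^ (C + 1)) := by rw [h8]
      _ ≤ (2 * (M + 1)) * (4 ^ M * 4 ^ (C + 1)) := Nat.mul_le_mul_right _ (by omega)
      _ = _ := by ring
  have h11 : (M + 1) * (M + 1) ≤ (2 * (M + 1)) * 4 ^ (C + 1) :=
    Nat.le_of_mul_le_mul_right h10 (by positivity)
  have h12 : M + 1 ≤ 2 * 4 ^ (C + 1) := by
    have h13 : (M + 1) * (M + 1) ≤ (M + 1) * (2 * 4 ^ (C + 1)) := by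
      calc (M + 1) * (M + 1) ≤ (2 * (M + 1)) * 4 ^ (C + 1) := h11
        _ = (M + 1) * (2 * 4 ^ (C + 1)) := by ring
    exact Nat.le_of_mul_le_mul_left h13 (by omega)
  rw [hM, pow_succ] at h12
  have : 0 < 4 ^ (C + 1) := by positivity
  omega

end Pool.Agent.Results.MP_fc8d4d_co.UnboundedGap
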